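import Mathlib

namespace Pool.Agent.Results.MP_7bafff_nt.Lucas

/-- `u` is the Ulam sequence (indexed from `0`): `u 0 = 1`, `u 1 = 2`, and each later term is the
least integer above the previous term with exactly one representation `u i + u j`, `i < j`, by
earlier terms. -/
def IsUlamSeq (u : ℕ → ℕ) : Prop :=
  u 0 = 1 ∧ u 1 = 2 ∧ ∀ n, IsLeast
    {m | u (n + 1) < m ∧ ∃! p : ℕ × ℕ, p.1 < p.2 ∧ p.2 < n + 2 ∧ u p.1 + u p.2 = m} (u (n + 2))

/-- The Lucas numbers `2, 1, 3, 4, 7, ...`. -/
def lucas : ℕ → ℕ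
  | 0 => 2
  | 1 => 1
  | n + 2 => lucas (n + 1) + lucas n

/-! ### Existence of the sequence -/

noncomputable def ul : ℕ → ℕ
  | 0 => 1
  | 1 => 2
  | n + 2 => sInf {m | ul (n + 1) < m ∧
      ∃! p : Fin (n + 2) × Fin (n + 2), p.1.1 < p.2.1 ∧ ul p.1.1 + ul p.2.1 = m}
  decreasing_by all_goals omega

lemma set_eq (u : ℕ → ℕ) (n : ℕ) : {m | u (n + 1) < m ∧
      ∃! p : Fin (n + 2) × Fin (n + 2), p.1.1 < p.2.1 ∧ u p.1.1 + u p.2.1 = m} =
    {m | u (n + 1) < m ∧ ∃! p : ℕ × ℕ, p.1 < p.2 ∧ p.2 < n + 2 ∧ u p.1 + u p.2 = m} := by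
  ext m
  simp only [Set.mem_ofPred_eq]
  refine and_congr_right fun _ => ⟨?_, ?_⟩
  · rintro ⟨⟨a, b⟩, ⟨h1, h2⟩, h3⟩
    refine ⟨(a.1, b.1), ⟨h1, b.2, h2⟩, ?_⟩
    rintro ⟨c, d⟩ ⟨g1, g2, g3⟩
    have := h3 (⟨c, by simp at g1 g2; omega⟩, ⟨d, g2⟩) ⟨g1, g3⟩
    simp only [Prod.mk.injEq, Fin.ext_iff] at this ⊢
    exact this
  · rintro ⟨⟨a, b⟩, ⟨h1, h2, h4⟩, h3⟩
    refine ⟨(⟨a, by simp at h1 h2; omega⟩, ⟨b, h2⟩), ⟨h1, h4⟩, ?_⟩
    rintro ⟨c, d⟩ ⟨g1, g3⟩
    have := h3 (c.1, d.1) ⟨g1, d.2, g3⟩
    simp only [Prod.mk.injEq, Fin.ext_iff] at this ⊢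
    exact this

lemma top_mem (u : ℕ → ℕ) (n : ℕ) (h0 : 0 < u 0) (h : ∀ i, i ≤ n → u i < u (i + 1)) :
    u n + u (n + 1) ∈
      {m | u (n + 1) < m ∧ ∃! p : ℕ × ℕ, p.1 < p.2 ∧ p.2 < n + 2 ∧ u p.1 + u p.2 = m} := by
  have mono : ∀ j, j ≤ n + 1 → ∀ i, i < j → u i < u j := by
    intro j
    induction j with
    | zero => intro _ i hi; omega
    | succ j ih =>
      intro hj i hi
      have := h j (by omega)
      rcases Nat.lt_succ_iff_lt_or_eq.1 hi with h1 | rfl
      · exact (ih (by omega) i h1).trans this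
      · exact this
  have hn : 0 < u n := by
    rcases Nat.eq_zero_or_pos n with rfl | hp
    · exact h0
    · exact h0.trans (mono n (by omega) 0 hp)
  refine ⟨by omega, (n, n + 1), ⟨by simp, by simp, rfl⟩, ?_⟩
  rintro ⟨c, d⟩ ⟨g1, g2, g3⟩
  simp only at g1 g2 g3
  have e1 : c < n → u c < u n := mono n (by omega) c
  have e2 : d < n + 1 → u d < u (n + 1) := mono (n + 1) le_rfl d
  have hc : c = n := by
    by_contra hc
    have := e1 (by omega)
    rcases Nat.lt_or_ge d (n + 1) with h1 | h1
    · have := e2 h1; omega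
    · have : d = n + 1 := by omega
      subst this; omega
  subst hc
  have : d = c + 1 := by omega
  simp [this]

lemma ul_succ (n : ℕ) : ul (n + 2) = sInf
    {m | ul (n + 1) < m ∧ ∃! p : ℕ × ℕ, p.1 < p.2 ∧ p.2 < n + 2 ∧ ul p.1 + ul p.2 = m} := by
  rw [← set_eq, ul]

lemma ul_zero : ul 0 = 1 := by rw [ul]
lemma ul_one : ul 1 = 2 := by rw [ul]

lemma ul_mono (n : ℕ) : ∀ i, i ≤ n → ul i < ul (i + 1) := by
  induction n with
  | zero => intro i hi; obtain rfl : i = 0 := by omega
            rw [ul_zero, ul_one]; norm_num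
  | succ n ih =>
    intro i hi
    rcases Nat.lt_or_ge i (n + 1) with h | h
    · exact ih i (by omega)
    · obtain rfl : i = n + 1 := by omega
      have := Nat.sInf_mem ⟨_, top_mem ul n (by rw [ul_zero]; norm_num) ih⟩
      rw [← ul_succ] at this
      exact this.1

lemma ul_spec : IsUlamSeq ul := by
  refine ⟨ul_zero, ul_one, fun n => ?_⟩
  have hne := top_mem ul n (by rw [ul_zero]; norm_num) (ul_mono n)
  have h1 := Nat.sInf_mem ⟨_, hne⟩
  rw [← ul_succ] at h1
  refine ⟨h1, fun m hm => ?_⟩
  rw [ul_succ]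
  exact Nat.sInf_le hm

/-! ### The set of Ulam numbers -/

section
variable {u : ℕ → ℕ} (hu : IsUlamSeq u)
include hu

lemma smono : StrictMono u := by
  apply strictMono_nat_of_lt_succ
  intro n
  rcases n with _ | n
  · rw [hu.1, hu.2.1]; norm_num
  · exact (hu.2.2 n).1.1

lemma mem_iff (m : ℕ) (hm : 3 ≤ m) : m ∈ Set.range u ↔
    ∃! x, 2 * x < m ∧ x ∈ Set.range u ∧ m - x ∈ Set.range u := by
  have hs := smono hu
  have hpos : ∀ i, 0 < u i := fun i => lt_of_lt_of_le (by rw [hu.1]; norm_num) (hs.monotone (Nat.zero_le i))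
  have key : ∀ n, m ≤ u (n + 2) →
      ((∃! p : ℕ × ℕ, p.1 < p.2 ∧ p.2 < n + 2 ∧ u p.1 + u p.2 = m) ↔
        ∃! x, 2 * x < m ∧ x ∈ Set.range u ∧ m - x ∈ Set.range u) := by
    intro n hn
    constructor
    · rintro ⟨⟨a, b⟩, ⟨h1, h2, h3⟩, h4⟩
      simp only at h1 h2 h3
      have := hs h1
      refine ⟨u a, ⟨by omega, ⟨a, rfl⟩, ⟨b, by omega⟩⟩, ?_⟩
      rintro x ⟨g1, ⟨c, rfl⟩, ⟨d, hd⟩⟩
      have hc := hpos c
      have hcd : c < d := hs.lt_iff_lt.1 (by omega)
      have hd2 : d < n + 2 := hs.lt_iff_lt.1 (by omega)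
      have := h4 (c, d) ⟨hcd, hd2, by simp only; omega⟩
      simp only [Prod.mk.injEq] at this
      rw [this.1]
    · rintro ⟨x, ⟨g1, ⟨c, rfl⟩, ⟨d, hd⟩⟩, h4⟩
      have hc := hpos c
      have hcd : c < d := hs.lt_iff_lt.1 (by omega)
      have hd2 : d < n + 2 := hs.lt_iff_lt.1 (by omega)
      refine ⟨(c, d), ⟨hcd, hd2, by simp only; omega⟩, ?_⟩
      rintro ⟨a, b⟩ ⟨h1, h2, h3⟩
      simp only at h1 h2 h3
      have := hs h1
      have e := h4 (u a) ⟨by omega, ⟨a, rfl⟩, ⟨b, by omega⟩⟩
      have e1 : a = c := hs.injective e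
      have e2 : b = d := hs.injective (by omega)
      rw [e1, e2]
  constructor
  · rintro ⟨n, rfl⟩
    have h2 : 1 < n := hs.lt_iff_lt.1 (by rw [hu.2.1]; omega)
    obtain ⟨k, rfl⟩ : ∃ k, n = k + 2 := ⟨n - 2, by omega⟩
    exact (key k le_rfl).1 (hu.2.2 k).1.2
  · intro h
    have hex : ∃ k, m ≤ u (k + 2) := ⟨m, le_trans (Nat.le_add_right m 2) (hs.id_le (m + 2))⟩
    classical
    have h1 := Nat.find_spec hex
    set k := Nat.find hex with hk
    have h2 : u (k + 1) < m := by
      rcases Nat.eq_zero_or_pos k with h0 | h0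
      · rw [h0, hu.2.1]; omega
      · have := Nat.find_min hex (m := k - 1) (by omega)
        rw [show k - 1 + 2 = k + 1 by omega] at this
        omega
    have := (hu.2.2 k).2 ⟨h2, (key k h1).2 h⟩
    exact ⟨k + 2, by omega⟩
end

def B : ℕ := 49852212054123467024386399679383717410297986834358008032507511456061153403737075970669047829034407697471651390567810638458622009190752357890817222736852418231778855978780643354507382712374009492167388390142819406934699059592701693170203195842391576684515873044816241315787897371250147598347966544581989203909916194838456257387867887072523478666970439368902446683256832087249697034203862850170762089518374730169213314776993689418866436233011952832778568367890169488298793093457221768990336000922455601721366672354860979191949155550697557531060600693752959319945957911246827642432734822304401810380582074082164015409205925117739387591184374481366377303844820746256124637327278906972592052208192186013436908638565405619667613207226014420996869219105126739463758734047681754013317813132786826002955092141845564022188983066823306186032793052818645656306972115853282106388234122829000566525398637893009939905865287958252166820048819072601524014882072895355048003990587333430378550464286447366732502917035446577837328692919932036031491063023689530791098037764018578184313208997891434424670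

def bit (x : ℕ) : Bool := Nat.beq (Nat.land 1 (Nat.shiftRight B x)) 1

noncomputable def cnt (m k : ℕ) : ℕ :=
  Nat.rec 0 (fun x acc => cond (bit x) (cond (bit (Nat.sub m x)) (Nat.succ acc) acc) acc) k

noncomputable def ok (m : ℕ) : Bool :=
  Nat.blt m 3 || (bit m == Nat.beq (cnt m (Nat.div (Nat.succ m) 2)) 1)

noncomputable def chk (a k : ℕ) : Bool :=
  Nat.rec true (fun i acc => acc && ok (Nat.add a i)) k

lemma cnt_eq (m k : ℕ) :
    cnt m k = ((Finset.range k).filter fun x => bit x = true ∧ bit (m - x) = true).card := by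
  induction k with
  | zero => rfl
  | succ k ih =>
    have e : cnt m (k + 1) =
        cond (bit k) (cond (bit (m - k)) (cnt m k + 1) (cnt m k)) (cnt m k) := rfl
    rw [e, Finset.range_add_one, Finset.filter_insert, ih]
    cases h1 : bit k <;> cases h2 : bit (m - k) <;> simp

lemma chk_ok (a k : ℕ) (h : chk a k = true) : ∀ m, a ≤ m → m < a + k → ok m = true := by
  induction k with
  | zero => intro m h1 h2; omega
  | succ k ih =>
    have e : chk a (k + 1) = (chk a k && ok (a + k)) := rfl
    rw [e, Bool.and_eq_true] at h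
    intro m h1 h2
    rcases Nat.lt_or_ge m (a + k) with h3 | h3
    · exact ih h.1 m h1 h3
    · obtain rfl : m = a + k := by omega
      exact h.2

lemma ok_spec (m : ℕ) (h2 : ok m = true) (h3 : 3 ≤ m) :
    (bit m = true ↔ cnt m ((m + 1) / 2) = 1) := by
  have e : ok m = (Nat.blt m 3 || (bit m == Nat.beq (cnt m ((m + 1) / 2)) 1)) := rfl
  rw [e, Bool.or_eq_true] at h2
  rcases h2 with h2 | h2
  · rw [Nat.blt_eq] at h2; omega
  · rw [beq_iff_eq] at h2
    rw [h2, Nat.beq_eq]

lemma chk_0 : chk 0 200 = true := by decide +kernel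
lemma chk_1 : chk 200 200 = true := by decide +kernel
lemma chk_2 : chk 400 200 = true := by decide +kernel
lemma chk_3 : chk 600 200 = true := by decide +kernel
lemma chk_4 : chk 800 200 = true := by decide +kernel
lemma chk_5 : chk 1000 200 = true := by decide +kernel
lemma chk_6 : chk 1200 200 = true := by decide +kernel
lemma chk_7 : chk 1400 200 = true := by decide +kernel
lemma chk_8 : chk 1600 200 = true := by decide +kernel
lemma chk_9 : chk 1800 200 = true := by decide +kernel
lemma chk_10 : chk 2000 200 = true := by decide +kernel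
lemma chk_11 : chk 2200 200 = true := by decide +kernel
lemma chk_12 : chk 2400 200 = true := by decide +kernel
lemma chk_13 : chk 2600 200 = true := by decide +kernel
lemma chk_14 : chk 2800 200 = true := by decide +kernel
lemma chk_15 : chk 3000 200 = true := by decide +kernel
lemma chk_16 : chk 3200 200 = true := by decide +kernel
lemma chk_17 : chk 3400 200 = true := by decide +kernel

lemma all_ok (m : ℕ) (hm : m < 3600) : ok m = true := by
  rcases Nat.lt_or_ge m 200 with h | h0
  · exact chk_ok _ _ chk_0 m (by omega) (by omega)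
  rcases Nat.lt_or_ge m 400 with h | h1
  · exact chk_ok _ _ chk_1 m (by omega) (by omega)
  rcases Nat.lt_or_ge m 600 with h | h2
  · exact chk_ok _ _ chk_2 m (by omega) (by omega)
  rcases Nat.lt_or_ge m 800 with h | h3
  · exact chk_ok _ _ chk_3 m (by omega) (by omega)
  rcases Nat.lt_or_ge m 1000 with h | h4
  · exact chk_ok _ _ chk_4 m (by omega) (by omega)
  rcases Nat.lt_or_ge m 1200 with h | h5
  · exact chk_ok _ _ chk_5 m (by omega) (by omega)
  rcases Nat.lt_or_ge m 1400 with h | h6
  · exact chk_ok _ _ chk_6 m (by omega) (by omega)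
  rcases Nat.lt_or_ge m 1600 with h | h7
  · exact chk_ok _ _ chk_7 m (by omega) (by omega)
  rcases Nat.lt_or_ge m 1800 with h | h8
  · exact chk_ok _ _ chk_8 m (by omega) (by omega)
  rcases Nat.lt_or_ge m 2000 with h | h9
  · exact chk_ok _ _ chk_9 m (by omega) (by omega)
  rcases Nat.lt_or_ge m 2200 with h | h10
  · exact chk_ok _ _ chk_10 m (by omega) (by omega)
  rcases Nat.lt_or_ge m 2400 with h | h11
  · exact chk_ok _ _ chk_11 m (by omega) (by omega)
  rcases Nat.lt_or_ge m 2600 with h | h12
  · exact chk_ok _ _ chk_12 m (by omega) (by omega)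
  rcases Nat.lt_or_ge m 2800 with h | h13
  · exact chk_ok _ _ chk_13 m (by omega) (by omega)
  rcases Nat.lt_or_ge m 3000 with h | h14
  · exact chk_ok _ _ chk_14 m (by omega) (by omega)
  rcases Nat.lt_or_ge m 3200 with h | h15
  · exact chk_ok _ _ chk_15 m (by omega) (by omega)
  rcases Nat.lt_or_ge m 3400 with h | h16
  · exact chk_ok _ _ chk_16 m (by omega) (by omega)
  rcases Nat.lt_or_ge m 3600 with h | h17
  · exact chk_ok _ _ chk_17 m (by omega) (by omega)
  omega

lemma cnt_zero : cnt 3571 1786 = 0 := by decide +kernel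

lemma bit_iff {u : ℕ → ℕ} (hu : IsUlamSeq u) (m : ℕ) : m < 3572 →
    (m ∈ Set.range u ↔ bit m = true) := by
  induction m using Nat.strong_induction_on with
  | _ m ih =>
    intro hm
    have hs := smono hu
    rcases Nat.lt_or_ge m 3 with h3 | h3
    · have b0 : bit 0 = false := by decide +kernel
      have b1 : bit 1 = true := by decide +kernel
      have b2 : bit 2 = true := by decide +kernel
      interval_cases m
      · simp only [b0, Bool.false_eq_true, iff_false]
        rintro ⟨i, hi⟩
        have := hs.monotone (Nat.zero_le i)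
        rw [hu.1] at this; omega
      · simpa [b1] using ⟨0, hu.1⟩
      · simpa [b2] using ⟨1, hu.2.1⟩
    · rw [mem_iff hu m h3, ok_spec m (all_ok m (by omega)) h3, cnt_eq, Finset.card_eq_one_iff_existsUnique]
      refine existsUnique_congr fun x => ?_
      have b0 : bit 0 = false := by decide +kernel
      simp only [Finset.mem_filter, Finset.mem_range]
      constructor
      · rintro ⟨g1, g2, g3⟩
        have hx : x ≠ 0 := by
          rintro rfl
          rw [ih 0 (by omega) (by omega), b0] at g2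
          exact absurd g2 (by simp)
        exact ⟨by omega, (ih x (by omega) (by omega)).1 g2, (ih _ (by omega) (by omega)).1 g3⟩
      · rintro ⟨g1, g2, g3⟩
        have hx : x ≠ 0 := by
          rintro rfl
          rw [b0] at g2
          exact absurd g2 (by simp)
        exact ⟨by omega, (ih x (by omega) (by omega)).2 g2, (ih _ (by omega) (by omega)).2 g3⟩

theorem result : (∃ u, IsUlamSeq u) ∧ ∀ u, IsUlamSeq u →
    ∃ n, (∀ i, u i ≠ lucas n) ∧ ∀ i j, i < j → u i + u j ≠ lucas n := by
  refine ⟨⟨ul, ul_spec⟩, fun u hu => ⟨17, ?_⟩⟩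
  have hL : lucas 17 = 3571 := by decide +kernel
  have hs := smono hu
  rw [hL]
  constructor
  · intro i hi
    have h := (bit_iff hu 3571 (by norm_num)).1 ⟨i, hi⟩
    have b : bit 3571 = false := by decide +kernel
    rw [b] at h
    exact absurd h (by simp)
  · intro i j hij h
    have h1 := hs hij
    have h0 := cnt_zero
    rw [cnt_eq, Finset.card_eq_zero, Finset.filter_eq_empty_iff] at h0
    refine h0 (x := u i) (Finset.mem_range.2 (by omega)) ⟨?_, ?_⟩
    · exact (bit_iff hu _ (by omega)).1 ⟨i, rfl⟩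
    · exact (bit_iff hu _ (by omega)).1 ⟨j, by omega⟩

end Pool.Agent.Results.MP_7bafff_nt.Lucas
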